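import Pool.Agent.P.MP_ab6b4f_lc.Oper

set_option autoImplicit false

namespace Pool.Agent.P.MP_ab6b4f_lc

open Nat.Partrec Topology TopologicalSpace

/-- replace an origin by the origin `b` -/
def Pt.put : Pt → Bool → Pt
  | .orig _, b => .orig b
  | p, _ => p

/-- which origin a point is -/
def Pt.side : Pt → Bool
  | .orig b => b
  | _ => false

/-- the point of the fibre of `w` with origins chosen by `β` -/
def sw (w : ℕ → Pt) (β : ℕ → Bool) : ℕ → Pt := fun k => (w k).put (β k)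

theorem put_side (p : Pt) : p.put p.side = p := by cases p <;> rfl

theorem put_put (p : Pt) (b b' : Bool) : (p.put b).put b' = p.put b' := by cases p <;> rfl

theorem put_bit (p : Pt) (b : Bool) (t : ℕ) : (p.put b).bit t ↔ p.bit t := by
  cases p <;> exact Iff.rfl

theorem XS_sw (w : ℕ → Pt) (β : ℕ → Bool) : XS (sw w β) = XS w := by
  ext n
  simp only [XS, sw, Set.mem_ofPred_eq, put_bit]

theorem sw_agree {m : ℕ} {w w' : ℕ → Pt} {β β' : ℕ → Bool} (h : Agree m w w')
    (h' : Agree m β β') : Agree m (sw w β) (sw w' β') := fun k hk => by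
  simp only [sw, h k hk, h' k hk]

/-- the lower part -/
def WW (x : ℕ → Pt) : Set ℕ :=
  join (join (XS x) (XS x)ᶜ) (OS true x ∪ OS false x ∪ HS true x ∪ HS false x)

theorem mem_WW_r (x : ℕ → Pt) (k : ℕ) :
    2 * k + 1 ∈ WW x ↔ (x k).flag true ∨ (x k).flag false := by
  rw [WW, mem_join_r, ← mem_flag, ← mem_flag]
  simp only [Set.mem_union]
  tauto

theorem mem_WW_l (x : ℕ → Pt) (a : ℕ) : 2 * a ∈ WW x ↔ a ∈ join (XS x) (XS x)ᶜ := by
  rw [WW, mem_join_l]

theorem mem_SS_0 (x : ℕ → Pt) (a : ℕ) : 2 * (2 * a) ∈ SS x ↔ a ∈ join (XS x) (XS x)ᶜ := by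
  rw [SS, mem_join_l, mem_join_l]

theorem mem_SS_t (x : ℕ → Pt) (k : ℕ) : 2 * (2 * k + 1) ∈ SS x ↔ (x k).flag true := by
  rw [SS, mem_join_l, mem_join_r, mem_flag]

theorem mem_SS_f (x : ℕ → Pt) (k : ℕ) : 2 * k + 1 ∈ SS x ↔ (x k).flag false := by
  rw [SS, mem_join_r, mem_flag]

theorem WW_sw (w : ℕ → Pt) (β : ℕ → Bool) : WW (sw w β) = WW w := by
  ext n
  obtain ⟨a, rfl | rfl⟩ := Nat.even_or_odd' n
  · rw [mem_WW_l, mem_WW_l, XS_sw]
  · rw [mem_WW_r, mem_WW_r]
    simp only [sw]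
    rcases w a with b | i | ⟨b, i, j⟩
    · cases b <;> cases β a <;> simp [Pt.put, Pt.flag]
    · exact Iff.rfl
    · exact Iff.rfl

theorem mem_WW_bit (x : ℕ → Pt) (k t : ℕ) : 2 * (2 * Nat.pair k t) ∈ WW x ↔ (x k).bit t := by
  rw [mem_WW_l, mem_join_l]
  simp only [XS, Set.mem_ofPred_eq, Nat.unpair_pair]

theorem SS_agree {L d : ℕ} {x u : ℕ → Pt} (h : Agree L x u) (hd : d ≤ L) (hx : D d ⊆ SS x) :
    D d ⊆ SS u := fun n hn =>
  SS_mono (L := L) (fun k hk => by rw [h k hk]; exact Ext.refl _ _) n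
    (lt_of_lt_of_le (D_lt _ _ hn) hd) (hx hn)

/-- the c.e. set with code `c` -/
def Wc (c : Code) : Set ℕ := {n | (c.eval n).Dom}

/-- If `s` is enumerated from every point of the fibre near `x`, uniformly at finite levels,
then it is enumeration reducible to the lower part. -/
theorem red (x : ℕ → Pt) (c : Code) (m : ℕ) (s : Set ℕ)
    (H : ∀ e, e ∈ s ↔ ∃ d, Nat.pair e d ∈ Wc c ∧ D d ⊆ SS x)
    (H2 : ∀ e ∈ s, ∃ L, m ≤ L ∧ ∀ β, Agree m x (sw x β) →
      ∃ d ≤ L, Nat.pair e d ∈ Wc c ∧ D d ⊆ SS (sw x β)) : EReducible s (WW x) := by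
  classical
  obtain ⟨ρ0, -, hρ0⟩ := exists_bits (fun k => (x k).flag true) m
  refine ⟨Op c m ρ0, re_Op c m ρ0, fun e => ⟨fun he => ?_, ?_⟩⟩
  · obtain ⟨L, hmL, hL⟩ := H2 e he
    have key : ∀ ρ < 2 ^ L, ∃ b, (∀ k < m, (k ∈ D ρ ↔ k ∈ D ρ0)) →
        Br c e ρ L b {n | n < b ∧ n ∈ WW x} := by
      intro ρ _
      by_cases hag : ∀ k < m, (k ∈ D ρ ↔ k ∈ D ρ0)
      swap
      · exact ⟨0, fun h => absurd h hag⟩
      by_cases hinc : ∃ J, Inc ρ L J (WW x)
      · obtain ⟨J, k, hk, j, hj, h⟩ := hinc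
        refine ⟨J + 2 * (2 * Nat.pair k (3 * j + 1)) + 2 * (2 * Nat.pair k (3 * j + 2)) + 1,
          fun _ => Or.inr ⟨k, hk, j, by omega, ?_⟩⟩
        rcases h with h | h
        · exact Or.inl ⟨h.1, by omega, h.2⟩
        · exact Or.inr ⟨h.1, by omega, h.2⟩
      · have hβ : Agree m x (sw x fun k => decide (k ∈ D ρ)) := by
          intro k hk
          have h1 : k ∈ D ρ ↔ (x k).flag true := by rw [hag k hk, hρ0]; simp [hk]
          simp only [sw]
          revert h1
          rcases x k with b | i | ⟨b, i, j⟩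
          · cases b <;> simp [Pt.put, Pt.flag]
          · exact fun _ => rfl
          · exact fun _ => rfl
        obtain ⟨d, hdL, hd1, hd2⟩ := hL _ hβ
        obtain ⟨r, hr⟩ := Part.dom_iff_mem.1 hd1
        obtain ⟨t, ht⟩ := Code.evaln_complete.1 hr
        refine ⟨max t L, fun _ => Or.inl ⟨d, by omega, Option.isSome_iff_exists.2
          ⟨r, Code.evaln_mono (le_max_left _ _) ht⟩, fun n hn hnd => ?_⟩⟩
        have hnS := hd2 hnd
        have hnb : n < max t L := lt_of_lt_of_le hn (le_trans hdL (le_max_right _ _))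
        rcases cases4 n with ⟨a, rfl⟩ | ⟨k, rfl⟩ | ⟨k, rfl⟩
        · refine Or.inl ⟨by omega, by omega, ?_⟩
          rw [mem_SS_0, XS_sw] at hnS
          rw [show 2 * (2 * a) / 2 = 2 * a by omega, mem_WW_l]
          exact hnS
        · rw [mem_SS_t] at hnS
          refine Or.inr (Or.inl ⟨by omega, ?_, by omega, ?_⟩)
          · rw [show 2 * (2 * k + 1) / 4 = k by omega]
            by_contra hk
            apply hinc
            simp only [sw] at hnS
            rcases hx : x k with b | i | ⟨b, i, j⟩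
            · rw [hx] at hnS
              simp [Pt.put, Pt.flag, hk] at hnS
            · rw [hx] at hnS
              exact hnS.elim
            · rw [hx] at hnS
              obtain rfl : b = true := hnS
              refine ⟨j + 1, k, by omega, j, by omega, Or.inl ⟨hk, ?_⟩⟩
              rw [mem_WW_bit, hx]
              exact Or.inr rfl
          · rw [show 2 * (2 * k + 1) / 2 = 2 * k + 1 by omega, ← WW_sw x, mem_WW_r]
            exact Or.inl hnS
        · rw [mem_SS_f] at hnS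
          refine Or.inr (Or.inr ⟨by omega, ?_, hnb, ?_⟩)
          · rw [show (2 * k + 1) / 2 = k by omega]
            intro hk
            apply hinc
            simp only [sw] at hnS
            rcases hx : x k with b | i | ⟨b, i, j⟩
            · rw [hx] at hnS
              simp [Pt.put, Pt.flag, hk] at hnS
            · rw [hx] at hnS
              exact hnS.elim
            · rw [hx] at hnS
              obtain rfl : b = false := hnS
              refine ⟨j + 1, k, by omega, j, by omega, Or.inr ⟨hk, ?_⟩⟩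
              rw [mem_WW_bit, hx]
              exact Or.inr rfl
          · rw [← WW_sw x, mem_WW_r]
            exact Or.inr hnS
    obtain ⟨b, hb⟩ := bound_all (fun ρ b => (∀ k < m, (k ∈ D ρ ↔ k ∈ D ρ0)) →
        Br c e ρ L b {n | n < b ∧ n ∈ WW x})
      (fun r b b' hbb' h h' => (h h').mono hbb' (fun n hn => ⟨lt_of_lt_of_le hn.1 hbb', hn.2⟩))
      _ key
    obtain ⟨d', -, hd'⟩ := exists_bits (fun n => n ∈ WW x) b
    refine ⟨d', ⟨Nat.pair L b, ?_⟩, fun n hn => ((hd' n).1 hn).2⟩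
    simp only [Nat.unpair_pair]
    exact ⟨hmL, fun ρ hρ h => (hb ρ hρ h).mono le_rfl (fun n hn => (hd' n).2 hn)⟩
  · rintro ⟨d', ⟨r, hmL, hr⟩, hd'⟩
    simp only [Nat.unpair_pair] at hr
    obtain ⟨ρ, hρ, hρb⟩ := exists_bits (fun k => (x k).flag true) r.unpair.1
    have hbr := (hr ρ hρ (fun k hk => by
      rw [hρb, hρ0]; simp [hk, lt_of_lt_of_le hk hmL])).mono le_rfl hd'
    rcases hbr with ⟨d, hd, h1, h2⟩ | ⟨k, hk, j, -, h | h⟩
    · obtain ⟨z, hz⟩ := Option.isSome_iff_exists.1 h1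
      refine (H e).2 ⟨d, Part.dom_iff_mem.2 ⟨z, Code.evaln_sound hz⟩, fun n hn => ?_⟩
      have hnd := D_lt _ _ hn
      have h3 := h2 n hnd hn
      rcases cases4 n with ⟨a, rfl⟩ | ⟨k, rfl⟩ | ⟨k, rfl⟩
      · rcases h3 with h | h | h
        · rw [show 2 * (2 * a) / 2 = 2 * a by omega, mem_WW_l] at h
          exact (mem_SS_0 _ _).2 h.2
        · omega
        · omega
      · rcases h3 with h | h | h
        · omega
        · rw [show 2 * (2 * k + 1) / 4 = k by omega, hρb] at h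
          exact (mem_SS_t _ _).2 h.2.1.2
        · omega
      · rcases h3 with h | h | h
        · omega
        · omega
        · rw [show (2 * k + 1) / 2 = k by omega, hρb, mem_WW_r] at h
          refine (mem_SS_f _ _).2 (h.2.2.resolve_left fun h' => h.2.1 ⟨by omega, h'⟩)
    · exfalso
      rw [hρb, mem_WW_bit] at h
      obtain ⟨h1, h2⟩ := h
      apply h1
      refine ⟨hk, ?_⟩
      revert h2
      rcases x k with b | i | ⟨b, i, j'⟩
      · exact fun h => h.elim
      · intro h; simp only [Pt.bit] at h; omega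
      · intro h
        cases b
        · simp [Pt.bit] at h; omega
        · rfl
    · exfalso
      rw [hρb, mem_WW_bit] at h
      obtain ⟨⟨-, h1⟩, h2⟩ := h
      rcases hx : x k with b | i | ⟨b, i, j'⟩
      · rw [hx] at h2
        exact h2.elim
      · rw [hx] at h1
        exact h1.elim
      · rw [hx] at h1 h2
        obtain rfl : b = true := h1
        simp [Pt.bit] at h2
        omega

theorem exists_generic' {E ι : Type} [Countable ι] [Nonempty ι] (w0 : ℕ → E)
    (G : ι → ℕ → (ℕ → E) → Prop)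
    (hG : ∀ s m w, ∃ m' w', m ≤ m' ∧ Agree m w w' ∧ G s m' w')
    (hinv : ∀ s m w w', Agree m w w' → G s m w → G s m w') :
    ∃ w : ℕ → E, ∀ s, ∃ m, G s m w := by
  obtain ⟨en, hen⟩ := exists_surjective_nat ι
  obtain ⟨w, hw⟩ := exists_generic w0 (fun s => G (en s)) (fun s => hG _) (fun s => hinv _)
  refine ⟨w, fun s => ?_⟩
  obtain ⟨n, rfl⟩ := hen s
  exact hw n

/-- `Z` is dense in the cylinder or misses it -/
def Dec {E : Type} (Z : Set (ℕ → E)) (m : ℕ) (v : ℕ → E) : Prop :=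
  DenseIn Z m v ∨ ∀ u, Agree m u v → u ∉ Z

theorem Dec.agree {E : Type} {Z : Set (ℕ → E)} {m : ℕ} {v v' : ℕ → E} (h : Dec Z m v)
    (ha : Agree m v v') : Dec Z m v' := by
  rcases h with h | h
  · exact Or.inl fun u hu => h u (ha.trans hu)
  · exact Or.inr fun u hu => h u (hu.trans ha.symm)

theorem exists_dec {E : Type} (Z : Set (ℕ → E)) (m : ℕ) (v : ℕ → E) :
    ∃ m' v', m ≤ m' ∧ Agree m v v' ∧ Dec Z m' v' := by
  by_cases h : DenseIn Z m v
  · exact ⟨m, v, le_rfl, Agree.refl _ _, Or.inl h⟩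
  · unfold DenseIn at h
    push Not at h
    obtain ⟨v', hv', m', hm'⟩ := h
    exact ⟨max m m', v', le_max_left _ _, hv',
      Or.inr fun u hu hb => hm' u hb (hu.mono (le_max_right _ _))⟩

/-- at level `L` the cylinder of `v` decides whether `e` is enumerated by `Φ` -/
def Box (Φ : Set ℕ) (e L : ℕ) (v : ℕ → Pt) : Prop :=
  (∃ d ≤ L, Nat.pair e d ∈ Φ ∧ D d ⊆ SS v) ∨
    ∀ u, Agree L u v → ¬ ∃ d, Nat.pair e d ∈ Φ ∧ D d ⊆ SS u

theorem Box.agree {Φ : Set ℕ} {e L L' : ℕ} {v v' : ℕ → Pt} (h : Box Φ e L v) (hL : L ≤ L')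
    (ha : Agree L v v') : Box Φ e L' v' := by
  rcases h with ⟨d, hd, h1, h2⟩ | h
  · exact Or.inl ⟨d, le_trans hd hL, h1, SS_agree ha hd h2⟩
  · exact Or.inr fun u hu => h u ((hu.mono hL).trans ha.symm)

/-- move an origin to a nearby point of its half plane -/
def Pt.off : Pt → ℕ → Pt
  | .orig b, L => .half b L L
  | p, _ => p

theorem off_put (p : Pt) (L : ℕ) (b : Bool) : (p.off L).put b = p.off L := by cases p <;> rfl

theorem ext_off (p : Pt) (L : ℕ) : Ext L p (p.off L) := by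
  rcases p with b | i | ⟨b, i, j⟩
  · exact ext_orig _ _ le_rfl _
  · exact Ext.refl _ _
  · exact Ext.refl _ _

theorem box_upto (Φ : Set ℕ) (e m : ℕ) (w : ℕ → Pt) (r : ℕ) :
    ∃ m' w', m ≤ m' ∧ Agree m w w' ∧ (∀ k, m ≤ k → k < m' → ∀ b, (w' k).put b = w' k) ∧
      ∀ ρ < r, Box Φ e m' (sw w' fun k => ρ.testBit k) := by
  induction r with
  | zero => exact ⟨m, w, le_rfl, Agree.refl _ _, fun k h1 h2 => by omega,
      fun ρ h => absurd h (Nat.not_lt_zero _)⟩
  | succ r ih =>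
    obtain ⟨m1, w1, hm1, ha1, hn1, hT⟩ := ih
    by_cases h : ∀ u, Agree m1 u (sw w1 fun k => r.testBit k) →
        ¬ ∃ d, Nat.pair e d ∈ Φ ∧ D d ⊆ SS u
    · refine ⟨m1, w1, hm1, ha1, hn1, fun ρ hρ => ?_⟩
      by_cases hρ' : ρ < r
      · exact hT ρ hρ'
      · obtain rfl : ρ = r := by omega
        exact Or.inr h
    · push Not at h
      obtain ⟨u, hu, d, hd1, hd2⟩ := h
      let w2 : ℕ → Pt := fun k => if k < m1 then w1 k else (u k).off (max m1 d)
      have ha2 : Agree m1 w1 w2 := fun k hk => by simp [w2, hk]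
      refine ⟨max m1 d, w2, le_trans hm1 (le_max_left _ _), ha1.trans (ha2.mono hm1), ?_, ?_⟩
      · intro k h1 _ b
        by_cases hk : k < m1
        · rw [← ha2 k hk]; exact hn1 k h1 hk b
        · simp only [w2, if_neg hk]; exact off_put _ _ _
      · intro ρ hρ
        by_cases hρ' : ρ < r
        · exact (hT ρ hρ').agree (le_max_left _ _) (sw_agree ha2 (Agree.refl _ _))
        · obtain rfl : ρ = r := by omega
          refine Or.inl ⟨d, le_max_right _ _, hd1, fun n hn => ?_⟩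
          refine SS_mono (L := max m1 d) (fun k _ => ?_) n
            (lt_of_lt_of_le (D_lt _ _ hn) (le_max_right _ _)) (hd2 hn)
          by_cases hk : k < m1
          · rw [hu k hk]
            simp only [sw, w2, if_pos hk]
            exact Ext.refl _ _
          · simp only [sw, w2, if_neg hk, off_put]
            exact ext_off _ _

theorem box_all (Φ : Set ℕ) (e m : ℕ) (w : ℕ → Pt) :
    ∃ m' w', m ≤ m' ∧ Agree m w w' ∧ ∀ β, Box Φ e m' (sw w' β) := by
  obtain ⟨m', w', h1, h2, h3, h4⟩ := box_upto Φ e m w (2 ^ m)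
  refine ⟨m', w', h1, h2, fun β => ?_⟩
  obtain ⟨ρ, hρ, hb⟩ := exists_bits (fun k => β k = true) m
  refine (h4 ρ hρ).agree le_rfl (fun k hk => ?_)
  by_cases hkm : k < m
  · have := hb k
    simp only [D, Set.mem_ofPred_eq, hkm, true_and] at this
    simp only [sw]
    rw [Bool.eq_iff_iff.2 this]
  · simp only [sw, h3 k (by omega) hk]

/-- first step: a generic fibre -/
theorem exists_fibre (S : Code → Set (ℕ → Pt)) :
    ∃ w : ℕ → Pt,
      (∀ c m α, ∃ m' β, m ≤ m' ∧ Agree m α β ∧ Dec (S c) m' (sw w β)) ∧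
      (∀ c e m, ∃ L, m ≤ L ∧ ∀ β, Box (Wc c) e L (sw w β)) ∧
      (∀ m, ∃ k, m ≤ k ∧ w k = .orig true) := by
  classical
  obtain ⟨w, hw⟩ := exists_generic' (ι := Code × ℕ × ℕ × ℕ) (fun _ => Pt.ax 0)
    (fun i L w => i.2.2.1 ≤ L ∧ (i.2.1 = 0 → ∃ β, Agree i.2.2.1 (fun k => i.2.2.2.testBit k) β ∧
        Dec (S i.1) L (sw w β)) ∧
      (i.2.1 = 1 → ∀ β, Box (Wc i.1) i.2.2.2 L (sw w β)) ∧
      (i.2.1 = 2 → ∃ k, i.2.2.1 ≤ k ∧ k < L ∧ w k = .orig true))
    (by
      rintro ⟨c, t, m0, ρ⟩ m w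
      by_cases h0 : t = 0
      · subst h0
        obtain ⟨m', v, h1, h2, h3⟩ := exists_dec (S c) (max m m0) (sw w fun k => ρ.testBit k)
        refine ⟨m', fun k => if k < max m m0 then w k else v k, le_trans (le_max_left _ _) h1,
          fun k hk => by simp [hk], le_trans (le_max_right _ _) h1,
          fun _ => ⟨fun k => if k < max m m0 then ρ.testBit k else (v k).side,
            fun k hk => by simp [hk], h3.agree fun k _ => ?_⟩, by simp, by simp⟩
        by_cases hk : k < max m m0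
        · rw [← h2 k hk]
          simp only [sw, if_pos hk]
        · simp only [sw, if_neg hk, put_side]
      by_cases h1 : t = 1
      · subst h1
        obtain ⟨m', w', h1, h2, h3⟩ := box_all (Wc c) ρ (max m m0) w
        exact ⟨m', w', le_trans (le_max_left _ _) h1, h2.mono (le_max_left _ _),
          le_trans (le_max_right _ _) h1, by simp, fun _ => h3, by simp⟩
      · refine ⟨max m m0 + 1, fun k => if k < m then w k else .orig true, by omega,
          fun k hk => by simp [hk], by simp only; omega, fun h => absurd h h0,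
          fun h => absurd h h1, fun _ => ⟨max m m0, le_max_right _ _, by omega, ?_⟩⟩
        have : ¬ max m m0 < m := by omega
        simp only [if_neg this])
    (by
      rintro ⟨c, t, m0, ρ⟩ m w w' ha ⟨h0, h1, h2, h3⟩
      refine ⟨h0, fun h => ?_, fun h β => ?_, fun h => ?_⟩
      · obtain ⟨β, hβ, hd⟩ := h1 h
        exact ⟨β, hβ, hd.agree (sw_agree ha (Agree.refl _ _))⟩
      · exact (h2 h β).agree le_rfl (sw_agree ha (Agree.refl _ _))
      · obtain ⟨k, hk1, hk2, hk3⟩ := h3 h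
        exact ⟨k, hk1, hk2, by rw [← ha k hk2]; exact hk3⟩)
  refine ⟨w, fun c m α => ?_, fun c e m => ?_, fun m => ?_⟩
  · obtain ⟨ρ, -, hb⟩ := exists_bits (fun k => α k = true) m
    obtain ⟨m', h0, h1, -⟩ := hw (c, 0, m, ρ)
    obtain ⟨β, hβ, hd⟩ := h1 rfl
    refine ⟨m', β, h0, fun k hk => ?_, hd⟩
    rw [← hβ k hk]
    have := hb k
    simp only [D, Set.mem_ofPred_eq, hk, true_and] at this
    exact (Bool.eq_iff_iff.2 this).symm
  · obtain ⟨L, h0, -, h1, -⟩ := hw (c, 1, m, e)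
    exact ⟨L, h0, h1 rfl⟩
  · obtain ⟨L, -, -, -, h1⟩ := hw (Code.zero, 2, m, 0)
    obtain ⟨k, hk, -, hk'⟩ := h1 rfl
    exact ⟨k, hk, hk'⟩

theorem cover {Y : Type*} [TopologicalSpace Y] [T25Space Y] (U : ℕ → Set Y)
    (hU : IsTopologicalBasis (Set.range U)) :
    ∃ x : ℕ → Pt, ¬ EReducible (SS x) (WW x) ∧
      ∀ y : Y, EReducible {e | y ∈ U e} (SS x) → EReducible {e | y ∈ U e} (WW x) := by
  classical
  let S : Code → Set (ℕ → Pt) := fun c =>
    {u | ∃ y : Y, ∀ e, y ∈ U e ↔ ∃ d, Nat.pair e d ∈ Wc c ∧ D d ⊆ SS u}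
  obtain ⟨w, hw1, hw2, hw3⟩ := exists_fibre S
  obtain ⟨α, hα⟩ := exists_generic' (ι := Code × ℕ) (fun _ => true)
    (fun i m α => (i.2 = 0 → Dec (S i.1) m (sw w α)) ∧
      (i.2 = 1 → Dec {β | sw w β ∈ S i.1} m α) ∧
      (i.2 = 2 → ∃ k, k < m ∧ w k = .orig true ∧
        (α k = true ↔ ¬ ∃ d, Nat.pair (2 * (2 * k + 1)) d ∈ Wc i.1 ∧ D d ⊆ WW w)))
    (by
      rintro ⟨c, t⟩ m α
      by_cases h0 : t = 0
      · subst h0
        obtain ⟨m', β, h1, h2, h3⟩ := hw1 c m α
        exact ⟨m', β, h1, h2, fun _ => h3, by simp, by simp⟩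
      by_cases h1 : t = 1
      · subst h1
        obtain ⟨m', β, h1, h2, h3⟩ := exists_dec {β | sw w β ∈ S c} m α
        exact ⟨m', β, h1, h2, by simp, fun _ => h3, by simp⟩
      · obtain ⟨k, hk, hk'⟩ := hw3 m
        refine ⟨k + 1, fun j => if j < m then α j else
          decide (¬ ∃ d, Nat.pair (2 * (2 * k + 1)) d ∈ Wc c ∧ D d ⊆ WW w), by omega,
          fun j hj => by simp [hj], fun h => absurd h h0, fun h => absurd h h1,
          fun _ => ⟨k, by omega, hk', ?_⟩⟩
        have : ¬ k < m := by omega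
        simp only [if_neg this, decide_eq_true_eq])
    (by
      rintro ⟨c, t⟩ m α α' ha ⟨h1, h2, h3⟩
      refine ⟨fun h => (h1 h).agree (sw_agree (Agree.refl _ _) ha), fun h => (h2 h).agree ha,
        fun h => ?_⟩
      obtain ⟨k, hk1, hk2, hk3⟩ := h3 h
      exact ⟨k, hk1, hk2, by rw [← ha k hk1]; exact hk3⟩)
  refine ⟨sw w α, ?_, ?_⟩
  · rintro ⟨Φ, hΦ, h⟩
    obtain ⟨c, rfl⟩ := exists_code_of_re hΦ
    obtain ⟨m, -, -, h3⟩ := hα (c, 2)
    obtain ⟨k, -, hk2, hk3⟩ := h3 rfl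
    have h4 := h (2 * (2 * k + 1))
    rw [mem_SS_t, WW_sw] at h4
    simp only [sw, hk2, Pt.put, Pt.flag] at h4
    have h5 := h4.symm.trans hk3
    exact iff_not_self h5
  · rintro y ⟨Φ, hΦ, h⟩
    obtain ⟨c, rfl⟩ := exists_code_of_re hΦ
    have hx : sw w α ∈ S c := ⟨y, h⟩
    obtain ⟨m1, h1, -⟩ := hα (c, 0)
    obtain ⟨m2, -, h2, -⟩ := hα (c, 1)
    have hd1 : DenseIn (S c) m1 (sw w α) :=
      (h1 rfl).resolve_right fun h' => h' _ (Agree.refl _ _) hx
    have hd2 : DenseIn {β | sw w β ∈ S c} m2 α :=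
      (h2 rfl).resolve_right fun h' => h' _ (Agree.refl _ _) hx
    let F : (ℕ → Pt) → Y := fun u => if hu : u ∈ S c then hu.choose else y
    have hF : ∀ u ∈ S c, ∀ e, F u ∈ U e ↔ ∃ d, Nat.pair e d ∈ Wc c ∧ D d ⊆ SS u := by
      intro u hu
      simp only [F, dif_pos hu]
      exact hu.choose_spec
    refine red (sw w α) c (max m1 m2) _ h (fun e he => ?_)
    obtain ⟨L, hL, hbox⟩ := hw2 c e (max m1 m2)
    refine ⟨L, hL, fun β hβ => ?_⟩
    let β' : ℕ → Bool := fun k => if k < max m1 m2 then α k else β k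
    have hββ' : sw (sw w α) β = sw w β' := by
      funext k
      by_cases hk : k < max m1 m2
      · rw [← hβ k hk]
        simp only [sw, β', if_pos hk]
      · simp only [sw, β', if_neg hk, put_put]
    have hαβ' : Agree (max m1 m2) α β' := fun k hk => by simp only [β', if_pos hk]
    obtain ⟨γ, hγ, hγβ⟩ := hd2 β' (hαβ'.mono (le_max_right _ _)) L
    have hE : F (sw w α) = F (sw w γ) := by
      refine eq_of_swap U hU (Wc c) (S c) F hF m1 _ _ hx hγ hd1
        (sw_agree (Agree.refl _ _) ((hαβ'.mono (le_max_left _ _)).trans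
          (hγβ.mono (le_trans (le_max_left _ _) hL)).symm)) (fun k => ?_)
      simp only [sw]
      rcases w k with b | i | ⟨b, i, j⟩
      · exact Or.inr ⟨_, _, rfl, rfl⟩
      · exact Or.inl rfl
      · exact Or.inl rfl
    have he' : ∃ d, Nat.pair e d ∈ Wc c ∧ D d ⊆ SS (sw w γ) := by
      rw [← hF _ hγ, ← hE, hF _ hx]
      exact (h e).1 he
    rw [hββ']
    exact (hbox β').resolve_right fun h' => h' _ (sw_agree (Agree.refl _ _) hγβ) he'

theorem main_cover {Y : Type*} [TopologicalSpace Y] [T25Space Y] (U : ℕ → Set Y)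
    (hU : IsTopologicalBasis (Set.range U)) :
    ∃ X A B P N : Set ℕ, CEIn X P ∧ CEIn X N ∧ CEIn X (A ∪ B)ᶜ ∧
      Disjoint A B ∧ Disjoint A P ∧ Disjoint A N ∧ Disjoint B P ∧ Disjoint B N ∧ Disjoint P N ∧
      EReducible (join (join X Xᶜ) (A ∪ B ∪ P ∪ N)) (join (join (join X Xᶜ) (A ∪ P)) (B ∪ N)) ∧
      ¬ EReducible (join (join (join X Xᶜ) (A ∪ P)) (B ∪ N)) (join (join X Xᶜ) (A ∪ B ∪ P ∪ N)) ∧
      ∀ y : Y, EReducible {e | y ∈ U e} (join (join (join X Xᶜ) (A ∪ P)) (B ∪ N)) →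
        EReducible {e | y ∈ U e} (join (join X Xᶜ) (A ∪ B ∪ P ∪ N)) := by
  obtain ⟨x, hx1, hx2⟩ := cover U hU
  refine ⟨XS x, OS true x, OS false x, HS true x, HS false x, ce_H x true, ce_H x false, ce_O x,
    ?_, ?_, ?_, ?_, ?_, ?_, lower_le _ _ _ _ _, hx1, hx2⟩ <;>
  · rw [Set.disjoint_left]
    intro k h1 h2
    simp only [OS, HS, Set.mem_ofPred_eq] at h1 h2
    first
      | (rw [h1] at h2; simp at h2; done)
      | (obtain ⟨i, j, h1⟩ := h1; rw [h1] at h2; simp at h2)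

end Pool.Agent.P.MP_ab6b4f_lc
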