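import Mathlib

set_option autoImplicit false

namespace Pool.Agent.P.MP_ab6b4f_lc

/-- The canonical listing of the finite sets: `D e` is the set of binary digits of `e`. -/
def D (e : ℕ) : Set ℕ := {i | e.testBit i = true}

/-- Enumeration reducibility `A ≤ₑ B`. -/
def EReducible (A B : Set ℕ) : Prop :=
  ∃ Φ : Set ℕ, REPred (fun m => m ∈ Φ) ∧ ∀ n, n ∈ A ↔ ∃ e, Nat.pair n e ∈ Φ ∧ D e ⊆ B

/-- The join `A ⊕ B`. -/
def join (A B : Set ℕ) : Set ℕ := {m | ∃ n ∈ A, m = 2 * n} ∪ {m | ∃ n ∈ B, m = 2 * n + 1}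

open Classical in
/-- `P` is c.e. relative to `X`: it is the domain of a function that is recursive in the
characteristic function of `X`. -/
def CEIn (X P : Set ℕ) : Prop :=
  ∃ f : ℕ →. ℕ, RecursiveIn {fun n => Part.some (if n ∈ X then 1 else 0)} f ∧
    ∀ n, n ∈ P ↔ (f n).Dom

end Pool.Agent.P.MP_ab6b4f_lc
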