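import Mathlib

set_option autoImplicit false

namespace Pool.Agent.P.MP_ab6b4f_lc

/-- agreement of two sequences below `m` -/
def Agree {E : Type} (m : ℕ) (x y : ℕ → E) : Prop := ∀ k, k < m → x k = y k

theorem Agree.refl {E : Type} (m : ℕ) (x : ℕ → E) : Agree m x x := fun _ _ => rfl

theorem Agree.symm {E : Type} {m : ℕ} {x y : ℕ → E} (h : Agree m x y) : Agree m y x :=
  fun k hk => (h k hk).symm

theorem Agree.trans {E : Type} {m : ℕ} {x y z : ℕ → E} (h : Agree m x y) (h' : Agree m y z) :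
    Agree m x z := fun k hk => (h k hk).trans (h' k hk)

theorem Agree.mono {E : Type} {m m' : ℕ} {x y : ℕ → E} (h : Agree m x y) (hm : m' ≤ m) :
    Agree m' x y := fun k hk => h k (lt_of_lt_of_le hk hm)

/-- a sequence meeting countably many dense sets of conditions -/
theorem exists_generic {E : Type} (w0 : ℕ → E) (G : ℕ → ℕ → (ℕ → E) → Prop)
    (hG : ∀ s m w, ∃ m' w', m ≤ m' ∧ Agree m w w' ∧ G s m' w')
    (hinv : ∀ s m w w', Agree m w w' → G s m w → G s m w') :
    ∃ w : ℕ → E, ∀ s, ∃ m, G s m w := by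
  choose M W hM hW hGW using hG
  let c : ℕ → ℕ × (ℕ → E) := fun s =>
    Nat.rec (motive := fun _ => ℕ × (ℕ → E)) (0, w0)
      (fun s p => (M s (p.1 + 1) p.2, W s (p.1 + 1) p.2)) s
  have hc : ∀ s, c (s + 1) = (M s ((c s).1 + 1) (c s).2, W s ((c s).1 + 1) (c s).2) :=
    fun s => rfl
  have h1 : ∀ s, (c s).1 + 1 ≤ (c (s + 1)).1 := fun s => by rw [hc]; exact hM _ _ _
  have h2 : ∀ s, Agree ((c s).1 + 1) (c s).2 (c (s + 1)).2 := fun s => by
    rw [hc]; exact hW _ _ _
  have h3 : ∀ s, G s (c (s + 1)).1 (c (s + 1)).2 := fun s => by rw [hc]; exact hGW _ _ _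
  have h4 : ∀ s, s ≤ (c s).1 := by
    intro s
    induction s with
    | zero => exact Nat.zero_le _
    | succ s ih => have := h1 s; omega
  have h5 : ∀ s t, s ≤ t → (c s).1 ≤ (c t).1 ∧ Agree ((c s).1 + 1) (c s).2 (c t).2 := by
    intro s t hst
    induction t, hst using Nat.le_induction with
    | base => exact ⟨le_rfl, Agree.refl _ _⟩
    | succ t _ ih =>
      refine ⟨by have := h1 t; omega, ih.2.trans ((h2 t).mono (by omega))⟩
  refine ⟨fun k => (c k).2 k, fun s => ⟨(c (s + 1)).1, hinv _ _ _ _ ?_ (h3 s)⟩⟩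
  intro k hk
  rcases le_total k (s + 1) with h | h
  · exact ((h5 k (s + 1) h).2 k (by have := h4 k; omega)).symm
  · exact (h5 (s + 1) k h).2 k (by omega)

/-- fill the undecided places of `w` by the points `o (α k)` -/
def fill {E : Type} (o : Bool → E) (w : ℕ → Option E) (α : ℕ → Bool) : ℕ → E :=
  fun k => (w k).getD (o (α k))

/-- `Z` is dense in the cylinder of `x` of length `m` -/
def DenseIn {E : Type} (Z : Set (ℕ → E)) (m : ℕ) (x : ℕ → E) : Prop :=
  ∀ v, Agree m x v → ∀ m', ∃ u ∈ Z, Agree m' u v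

theorem avoid_list {E : Type} (o : Bool → E) (Bad : Set (ℕ → E))
    (hB : ∀ m v, ∃ m' v', m ≤ m' ∧ Agree m v v' ∧ ∀ u, Agree m' u v' → u ∉ Bad)
    (m : ℕ) (w : ℕ → Option E) (T : List (ℕ → Bool)) :
    ∃ m' w', m ≤ m' ∧ Agree m w w' ∧ (∀ k, m ≤ k → k < m' → w' k ≠ none) ∧
      ∀ α ∈ T, ∀ u, Agree m' u (fill o w' α) → u ∉ Bad := by
  induction T with
  | nil => exact ⟨m, w, le_rfl, Agree.refl _ _, fun k h1 h2 => by omega, by simp⟩
  | cons α0 T ih =>
    obtain ⟨m1, w1, hm1, ha1, hn1, hT⟩ := ih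
    obtain ⟨m2, v, hm2, ha2, hv⟩ := hB m1 (fill o w1 α0)
    refine ⟨m2, fun k => if k < m1 then w1 k else some (v k), le_trans hm1 hm2, ?_, ?_, ?_⟩
    · intro k hk
      have : k < m1 := by omega
      simp only [this, if_true]
      exact ha1 k hk
    · intro k h1 h2
      by_cases hk : k < m1
      · simp only [hk, if_true]; exact hn1 k h1 hk
      · simp [hk]
    · intro α hα u hu
      rcases List.mem_cons.1 hα with rfl | hα
      · apply hv
        intro k hk
        rw [hu k hk]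
        by_cases hk1 : k < m1
        · rw [← ha2 k hk1]; simp [fill, hk1]
        · simp [fill, hk1]
      · apply hT α hα
        intro k hk
        rw [hu k (by omega)]
        simp [fill, hk]

theorem avoid_all {E : Type} (o : Bool → E) (Bad : Set (ℕ → E))
    (hB : ∀ m v, ∃ m' v', m ≤ m' ∧ Agree m v v' ∧ ∀ u, Agree m' u v' → u ∉ Bad)
    (m : ℕ) (w : ℕ → Option E) :
    ∃ m' w', m ≤ m' ∧ Agree m w w' ∧ ∀ α u, Agree m' u (fill o w' α) → u ∉ Bad := by
  classical
  let ext : (Fin m → Bool) → ℕ → Bool := fun β k => if h : k < m then β ⟨k, h⟩ else false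
  obtain ⟨m', w', h1, h2, h3, h4⟩ := avoid_list o Bad hB m w
    ((Finset.univ : Finset (Fin m → Bool)).toList.map ext)
  refine ⟨m', w', h1, h2, fun α u hu => h4 (ext fun k => α k) ?_ u ?_⟩
  · exact List.mem_map.2 ⟨fun k => α k, by simp, rfl⟩
  · intro k hk
    rw [hu k hk]
    by_cases hkm : k < m
    · simp [fill, ext, hkm]
    · have := h3 k (by omega) hk
      obtain ⟨e, he⟩ := Option.ne_none_iff_exists'.1 this
      simp [fill, he]

/-- Main combinatorial lemma: if countably many sets cover the sequence space, one of them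
contains two points of a cylinder in which it is dense that differ exactly by exchanging
`o true` and `o false` in some places. -/
theorem exists_pair {E : Type} (o : Bool → E) {ι : Type} [Countable ι]
    (Z : ι → Set (ℕ → E)) (hZ : ∀ x, ∃ i, x ∈ Z i) :
    ∃ (i : ι) (m : ℕ) (x x' : ℕ → E), x ∈ Z i ∧ x' ∈ Z i ∧ DenseIn (Z i) m x ∧ Agree m x x' ∧
      (∀ k, x k = x' k ∨ ∃ b b', x k = o b ∧ x' k = o b') ∧
      ∃ k, x k = o true ∧ x' k = o false := by
  classical
  obtain ⟨i0, -⟩ := hZ (fun _ => o true)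
  have : Nonempty ι := ⟨i0⟩
  obtain ⟨en, hen⟩ := exists_surjective_nat ι
  let Bad : ι → Set (ℕ → E) := fun i => {x | x ∈ Z i ∧ ∀ m, ¬ DenseIn (Z i) m x}
  have hBad : ∀ i m v, ∃ m' v', m ≤ m' ∧ Agree m v v' ∧ ∀ u, Agree m' u v' → u ∉ Bad i := by
    intro i m v
    by_cases h : DenseIn (Z i) m v
    · refine ⟨m, v, le_rfl, Agree.refl _ _, fun u hu hb => hb.2 m ?_⟩
      intro v' hv' m'
      exact h v' (hu.symm.trans hv') m'
    · unfold DenseIn at h
      push Not at h
      obtain ⟨v', hv', m', hm'⟩ := h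
      refine ⟨max m m', v', le_max_left _ _, hv', fun u hu hb => ?_⟩
      exact hm' u hb.1 (hu.mono (le_max_right _ _))
  obtain ⟨w, hw⟩ := exists_generic (E := Option E) (fun _ => none)
    (fun s m w => (∀ α u, Agree m u (fill o w α) → u ∉ Bad (en s)) ∧
      ∃ k, s ≤ k ∧ k < m ∧ w k = none)
    (by
      intro s m w
      obtain ⟨m', w', h1, h2, h3⟩ := avoid_all o (Bad (en s)) (hBad _) m w
      refine ⟨m' + s + 1, fun k => if k < m' then w' k else none, by omega, ?_, ?_, m' + s,
        by omega, by omega, by simp⟩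
      · intro k hk
        have : k < m' := by omega
        simp only [this, if_true]
        exact h2 k hk
      · intro α u hu
        apply h3 α
        intro k hk
        rw [hu k (by omega)]
        simp [fill, hk])
    (by
      rintro s m w w' ha ⟨h1, k, hk1, hk2, hk3⟩
      refine ⟨fun α u hu => h1 α u ?_, k, hk1, hk2, by rw [← ha k hk2]; exact hk3⟩
      intro j hj
      rw [hu j hj]
      simp [fill, ha j hj])
  have hinf : {k | w k = none}.Infinite := by
    apply Set.infinite_of_forall_exists_gt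
    intro a
    obtain ⟨m, -, k, hk1, -, hk3⟩ := hw (a + 1)
    exact ⟨k, hk3, by omega⟩
  have hgood : ∀ α, ∃ i m, fill o w α ∈ Z i ∧ DenseIn (Z i) m (fill o w α) := by
    intro α
    obtain ⟨i, hi⟩ := hZ (fill o w α)
    obtain ⟨s, rfl⟩ := hen i
    obtain ⟨m, h1, -⟩ := hw s
    have := h1 α _ (Agree.refl _ _)
    simp only [Bad, Set.mem_ofPred_eq, not_and, not_forall, not_not] at this
    obtain ⟨m', hm'⟩ := this hi
    exact ⟨_, m', hi, hm'⟩
  choose I M hI hM using hgood
  let κ : ℕ → ℕ := fun j => (hinf.natEmbedding _ j : ℕ)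
  have hκ : Function.Injective κ := fun a b h =>
    (hinf.natEmbedding _).injective (Subtype.ext h)
  have hκw : ∀ j, w (κ j) = none := fun j => (hinf.natEmbedding _ j).2
  let A : Set ℕ → ℕ → Bool := fun β => Function.extend κ (fun j => decide (j ∈ β)) (fun _ => false)
  have hA : ∀ β j, A β (κ j) = decide (j ∈ β) := fun β j => hκ.extend_apply _ _ j
  let g : Set ℕ → ι × ℕ × List Bool := fun β =>
    (I (A β), M (A β), (List.range (M (A β))).map (A β))
  have hg : ¬ Function.Injective g := by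
    intro hinj
    obtain ⟨f, hf⟩ := exists_injective_nat (ι × ℕ × List Bool)
    exact Function.cantor_injective (f ∘ g) (hf.comp hinj)
  have key : ∀ β β' : Set ℕ, g β = g β' → ∀ j, j ∈ β → j ∉ β' →
      ∃ (i : ι) (m : ℕ) (x x' : ℕ → E), x ∈ Z i ∧ x' ∈ Z i ∧ DenseIn (Z i) m x ∧ Agree m x x' ∧
      (∀ k, x k = x' k ∨ ∃ b b', x k = o b ∧ x' k = o b') ∧
      ∃ k, x k = o true ∧ x' k = o false := by
    intro β β' hββ' j hj hj'
    simp only [g, Prod.mk.injEq] at hββ'
    obtain ⟨e1, e2, e3⟩ := hββ'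
    refine ⟨I (A β), M (A β), fill o w (A β), fill o w (A β'), hI _, e1 ▸ hI _, hM _, ?_, ?_,
      κ j, ?_, ?_⟩
    · intro k hk
      rw [← e2] at e3
      have := (List.map_inj_left.1 e3) k (List.mem_range.2 hk)
      simp [fill, this]
    · intro k
      rcases hwk : w k with _ | e
      · right; exact ⟨A β k, A β' k, by simp [fill, hwk], by simp [fill, hwk]⟩
      · left; simp [fill, hwk]
    · simp [fill, hκw, hA, hj]
    · simp [fill, hκw, hA, hj']
  unfold Function.Injective at hg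
  push Not at hg
  obtain ⟨β, β', h1, h2⟩ := hg
  by_cases h : β ⊆ β'
  · have : ¬ β' ⊆ β := fun h' => h2 (Set.Subset.antisymm h h')
    obtain ⟨j, hj, hj'⟩ := Set.not_subset.1 this
    exact key β' β h1.symm j hj hj'
  · obtain ⟨j, hj, hj'⟩ := Set.not_subset.1 h
    exact key β β' h1 j hj hj'

end Pool.Agent.P.MP_ab6b4f_lc
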