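import Pool.Agent.P.MP_ab6b4f_lc.Defs
import Pool.Agent.P.MP_ab6b4f_lc.Generic

set_option autoImplicit false

namespace Pool.Agent.P.MP_ab6b4f_lc

open Topology TopologicalSpace

/-- points of a countable double origin space: the two origins, the points on the axis,
and the points of the upper and lower half planes -/
inductive Pt : Type
  | orig : Bool → Pt
  | ax : ℕ → Pt
  | half : Bool → ℕ → ℕ → Pt

def Pt.bit : Pt → ℕ → Prop
  | .orig _, _ => False
  | .ax i, t => t = 3 * i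
  | .half b i j, t => t = 3 * i ∨ t = 3 * j + (if b then 1 else 2)

def Pt.flag (s : Bool) : Pt → Prop
  | .orig b => b = s
  | .ax _ => False
  | .half b _ _ => b = s

def XS (x : ℕ → Pt) : Set ℕ := {n | (x n.unpair.1).bit n.unpair.2}
def OS (s : Bool) (x : ℕ → Pt) : Set ℕ := {k | x k = .orig s}
def HS (s : Bool) (x : ℕ → Pt) : Set ℕ := {k | ∃ i j, x k = .half s i j}

def SS (x : ℕ → Pt) : Set ℕ :=
  join (join (join (XS x) (XS x)ᶜ) (OS true x ∪ HS true x)) (OS false x ∪ HS false x)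

theorem mem_flag (s : Bool) (x : ℕ → Pt) (k : ℕ) : k ∈ OS s x ∪ HS s x ↔ (x k).flag s := by
  simp only [OS, HS, Set.mem_union, Set.mem_ofPred_eq]
  rcases x k with b | i | ⟨b, i, j⟩ <;> simp [Pt.flag]

def Ext (L : ℕ) (c c' : Pt) : Prop :=
  (∀ t, t < L → (c.bit t ↔ c'.bit t)) ∧ ∀ s, c.flag s → c'.flag s

theorem Ext.refl (L : ℕ) (c : Pt) : Ext L c c := ⟨fun _ _ => Iff.rfl, fun _ h => h⟩

theorem ext_orig (L j : ℕ) (hj : L ≤ j) (b : Bool) : Ext L (.orig b) (.half b L j) := by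
  refine ⟨fun t ht => ?_, fun s h => h⟩
  simp only [Pt.bit, false_iff, not_or]
  constructor
  · omega
  · split_ifs <;> omega

theorem ext_ax (L i : ℕ) (b : Bool) : Ext L (.ax i) (.half b i L) := by
  refine ⟨fun t ht => ?_, fun s h => h.elim⟩
  simp only [Pt.bit]
  constructor
  · exact Or.inl
  · rintro (h | h)
    · exact h
    · split_ifs at h <;> omega

theorem join_mono {A B A' B' : Set ℕ} {L : ℕ} (hA : ∀ n, n < L → n ∈ A → n ∈ A')
    (hB : ∀ n, n < L → n ∈ B → n ∈ B') : ∀ n, n < L → n ∈ join A B → n ∈ join A' B' := by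
  rintro n hn (⟨a, ha, rfl⟩ | ⟨a, ha, rfl⟩)
  · exact Or.inl ⟨a, hA a (by omega) ha, rfl⟩
  · exact Or.inr ⟨a, hB a (by omega) ha, rfl⟩

theorem SS_mono {L : ℕ} {x u : ℕ → Pt} (h : ∀ k, k < L → Ext L (x k) (u k)) :
    ∀ n, n < L → n ∈ SS x → n ∈ SS u := by
  have hX : ∀ n, n < L → (n ∈ XS x ↔ n ∈ XS u) := fun n hn =>
    (h _ (lt_of_le_of_lt (Nat.unpair_left_le n) hn)).1 _
      (lt_of_le_of_lt (Nat.unpair_right_le n) hn)
  refine join_mono (join_mono (join_mono ?_ ?_) ?_) ?_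
  · exact fun n hn => (hX n hn).1
  · exact fun n hn h1 h2 => h1 ((hX n hn).2 h2)
  · intro n hn
    rw [mem_flag, mem_flag]
    exact (h n hn).2 _
  · intro n hn
    rw [mem_flag, mem_flag]
    exact (h n hn).2 _

theorem D_lt (d n : ℕ) (h : n ∈ D d) : n < d := by
  have h1 : 2 ^ n ≤ d := Nat.ge_two_pow_of_testBit h
  exact lt_of_lt_of_le Nat.lt_two_pow_self h1

theorem mem_closure_aux {Y : Type*} [TopologicalSpace Y] (U : ℕ → Set Y)
    (hU : IsTopologicalBasis (Set.range U)) (Φ : Set ℕ) (Z : Set (ℕ → Pt)) (F : (ℕ → Pt) → Y)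
    (hF : ∀ u ∈ Z, ∀ e, F u ∈ U e ↔ ∃ d, Nat.pair e d ∈ Φ ∧ D d ⊆ SS u)
    (m L : ℕ) (x z : ℕ → Pt) (hd : DenseIn Z m x) (hz : z ∈ Z) (_hmL : m ≤ L)
    (hxz : Agree m x z)
    (hk : ∀ k, k < L → z k = x k ∨ (m ≤ k ∧ z k = .ax L ∧ ∃ b, x k = .orig b))
    (e d : ℕ) (hed : Nat.pair e d ∈ Φ) (hdx : D d ⊆ SS x) (hdL : d ≤ L) :
    F z ∈ closure (U e) := by
  classical
  rw [hU.mem_closure_iff]
  rintro _ ⟨f, rfl⟩ hzf
  obtain ⟨d', hfd, hdz⟩ := (hF z hz f).1 hzf
  let L' := max L d'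
  let v : ℕ → Pt := fun k =>
    if k < L ∧ z k ≠ x k then .half (decide (x k = .orig true)) L L' else z k
  have hv : Agree m x v := by
    intro k hkm
    have : z k = x k := (hxz k hkm).symm
    simp [v, this]
  obtain ⟨u, hu, huv⟩ := hd v hv L'
  refine ⟨F u, (hF u hu f).2 ⟨d', hfd, fun n hn => ?_⟩, (hF u hu e).2 ⟨d, hed, fun n hn => ?_⟩⟩
  · refine SS_mono (L := L') (fun k hkL => ?_) n
      (lt_of_lt_of_le (D_lt _ _ hn) (le_max_right _ _)) (hdz hn)
    rw [huv k hkL]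
    by_cases h : k < L ∧ z k ≠ x k
    · rcases hk k h.1 with h' | ⟨-, h', -⟩
      · exact absurd h' h.2
      · simp only [v, if_pos h]
        rw [h']
        exact ext_ax _ _ _
    · simp only [v, if_neg h]
      exact Ext.refl _ _
  · refine SS_mono (L := L) (fun k hkL => ?_) n (lt_of_lt_of_le (D_lt _ _ hn) hdL) (hdx hn)
    rw [huv k (lt_of_lt_of_le hkL (le_max_left _ _))]
    by_cases h : k < L ∧ z k ≠ x k
    · rcases hk k h.1 with h' | ⟨-, -, b, h'⟩
      · exact absurd h' h.2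
      · simp only [v, if_pos h]
        rw [h']
        have : decide (Pt.orig b = Pt.orig true) = b := by cases b <;> simp
        rw [this]
        exact ext_orig _ _ (le_max_left _ _) _
    · simp only [v, if_neg h]
      have : z k = x k := by
        by_contra h'
        exact h ⟨hkL, h'⟩
      rw [this]
      exact Ext.refl _ _

theorem eq_of_swap {Y : Type*} [TopologicalSpace Y] [T25Space Y] (U : ℕ → Set Y)
    (hU : IsTopologicalBasis (Set.range U)) (Φ : Set ℕ) (Z : Set (ℕ → Pt)) (F : (ℕ → Pt) → Y)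
    (hF : ∀ u ∈ Z, ∀ e, F u ∈ U e ↔ ∃ d, Nat.pair e d ∈ Φ ∧ D d ⊆ SS u)
    (m : ℕ) (x x' : ℕ → Pt) (hx : x ∈ Z) (hx' : x' ∈ Z) (hd : DenseIn Z m x)
    (ha : Agree m x x') (hs : ∀ k, x k = x' k ∨ ∃ b b', x k = .orig b ∧ x' k = .orig b') :
    F x = F x' := by
  classical
  by_contra hne
  obtain ⟨V, hxV, hV, V', hxV', hV', hdis⟩ := exists_open_nhds_disjoint_closure hne
  obtain ⟨_, ⟨e, rfl⟩, hxe, heV⟩ := hU.exists_subset_of_mem_open hxV hV
  obtain ⟨_, ⟨e', rfl⟩, hxe', heV'⟩ := hU.exists_subset_of_mem_open hxV' hV'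
  obtain ⟨d, hed, hdx⟩ := (hF x hx e).1 hxe
  obtain ⟨d', hed', hdx'⟩ := (hF x' hx' e').1 hxe'
  let L := max m (max d d')
  let ρ : ℕ → Pt := fun k => if x k = x' k then x k else .ax L
  have hρ : Agree m x ρ := fun k hk => by simp [ρ, ha k hk]
  obtain ⟨z, hz, hzρ⟩ := hd ρ hρ L
  have hmL : m ≤ L := le_max_left _ _
  have hxz : Agree m x z := hρ.trans (hzρ.mono hmL).symm
  have hd' : DenseIn Z m x' := fun v hv => hd v (ha.trans hv)
  have h1 : F z ∈ closure (U e) := by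
    refine mem_closure_aux U hU Φ Z F hF m L x z hd hz hmL hxz (fun k hk => ?_) e d hed hdx
      (le_trans (le_max_left _ _) (le_max_right _ _))
    rw [hzρ k hk]
    by_cases h : x k = x' k
    · left; simp [ρ, h]
    · right
      refine ⟨by by_contra h'; exact h (ha k (by omega)), by simp [ρ, h], ?_⟩
      rcases hs k with h' | ⟨b, b', h', -⟩
      · exact absurd h' h
      · exact ⟨b, h'⟩
  have h2 : F z ∈ closure (U e') := by
    refine mem_closure_aux U hU Φ Z F hF m L x' z hd' hz hmL (ha.symm.trans hxz)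
      (fun k hk => ?_) e' d' hed' hdx' (le_trans (le_max_right _ _) (le_max_right _ _))
    rw [hzρ k hk]
    by_cases h : x k = x' k
    · left; simp [ρ, h]
    · right
      refine ⟨by by_contra h'; exact h (ha k (by omega)), by simp [ρ, h], ?_⟩
      rcases hs k with h' | ⟨b, b', -, h'⟩
      · exact absurd h' h
      · exact ⟨b', h'⟩
  exact Set.disjoint_left.1 hdis (closure_mono heV h1) (closure_mono heV' h2)

theorem exists_code_of_re {Φ : Set ℕ} (h : REPred fun m => m ∈ Φ) :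
    ∃ c : Nat.Partrec.Code, Φ = {n | (c.eval n).Dom} := by
  have h1 : Partrec fun a : ℕ => (Part.assert (a ∈ Φ) fun _ => Part.some ()).map
      (fun _ => (0 : ℕ)) := Partrec.map h (Computable.const 0).to₂
  obtain ⟨c, hc⟩ := Nat.Partrec.Code.exists_code.1 (Partrec.nat_iff.1 h1)
  refine ⟨c, Set.ext fun n => ?_⟩
  simp [hc, Part.dom_iff_mem]

theorem ceIn_proj (X P : Set ℕ) (g : ℕ → ℕ) (hg : Primrec g)
    (hP : ∀ k, k ∈ P ↔ ∃ j, g (Nat.pair k j) ∈ X) : CEIn X P := by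
  classical
  let χ : ℕ →. ℕ := fun n => Part.some (if n ∈ X then 1 else 0)
  have h1 : Nat.RecursiveIn {χ} χ := .oracle χ rfl
  have h2 : Nat.RecursiveIn {χ} (fun n => (g n : Part ℕ)) := (Primrec.nat_iff.1 hg).recursiveIn
  have h3 : Nat.RecursiveIn {χ} (fun n => ((1 - n : ℕ) : Part ℕ)) :=
    (Primrec.nat_iff.1 (Primrec.nat_sub.comp (Primrec.const 1) Primrec.id)).recursiveIn
  have h4 := Nat.RecursiveIn.rfind (h3.comp (h1.comp h2))
  refine ⟨_, RecursiveIn.iff_nat.2 h4, fun k => ?_⟩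
  rw [hP, Nat.rfind_dom]
  simp [χ]
  constructor
  · rintro ⟨j, hj⟩
    exact ⟨j, by simp [hj]⟩
  · rintro ⟨j, hj⟩
    refine ⟨j, ?_⟩
    by_contra h
    simp [h] at hj

theorem ce_H (x : ℕ → Pt) (s : Bool) : CEIn (XS x) (HS s x) := by
  refine ceIn_proj _ _ (fun n => Nat.pair n.unpair.1 (3 * n.unpair.2 + if s then 1 else 2)) ?_ ?_
  · refine Primrec₂.natPair.comp (Primrec.fst.comp Primrec.unpair) ?_
    exact Primrec.nat_add.comp
      (Primrec.nat_mul.comp (Primrec.const 3) (Primrec.snd.comp Primrec.unpair)) (Primrec.const _)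
  · intro k
    simp only [HS, XS, Set.mem_ofPred_eq, Nat.unpair_pair]
    rcases x k with b | i | ⟨b, i, j⟩
    · simp [Pt.bit]
    · simp only [Pt.bit, reduceCtorEq, exists_false, false_iff, not_exists]
      intro j
      split_ifs <;> omega
    · simp only [Pt.bit, Pt.half.injEq]
      constructor
      · rintro ⟨i', j', rfl, rfl, rfl⟩
        exact ⟨j, Or.inr rfl⟩
      · rintro ⟨j', h⟩
        refine ⟨i, j, ?_, rfl, rfl⟩
        cases b <;> cases s <;> simp at h ⊢ <;> omega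

theorem ce_O (x : ℕ → Pt) : CEIn (XS x) (OS true x ∪ OS false x)ᶜ := by
  refine ceIn_proj _ _ id Primrec.id ?_
  intro k
  simp only [OS, XS, Set.mem_compl_iff, Set.mem_union, Set.mem_ofPred_eq, id, Nat.unpair_pair]
  rcases x k with b | i | ⟨b, i, j⟩
  · cases b <;> simp [Pt.bit]
  · simp [Pt.bit]
  · simp [Pt.bit]

theorem main {Y : Type*} [TopologicalSpace Y] [T25Space Y] (U : ℕ → Set Y)
    (hU : IsTopologicalBasis (Set.range U)) :
    ∃ X A B P N : Set ℕ, CEIn X P ∧ CEIn X N ∧ CEIn X (A ∪ B)ᶜ ∧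
      Disjoint A B ∧ Disjoint A P ∧ Disjoint A N ∧ Disjoint B P ∧ Disjoint B N ∧ Disjoint P N ∧
      ∀ y : Y, ¬ (EReducible (join (join (join X Xᶜ) (A ∪ P)) (B ∪ N)) {e | y ∈ U e} ∧
        EReducible {e | y ∈ U e} (join (join (join X Xᶜ) (A ∪ P)) (B ∪ N))) := by
  classical
  suffices h : ∃ x : ℕ → Pt, ∀ y : Y, ¬ (EReducible (SS x) {e | y ∈ U e} ∧
      EReducible {e | y ∈ U e} (SS x)) by
    obtain ⟨x, hx⟩ := h
    refine ⟨XS x, OS true x, OS false x, HS true x, HS false x, ce_H x true, ce_H x false, ce_O x,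
      ?_, ?_, ?_, ?_, ?_, ?_, hx⟩ <;>
    · rw [Set.disjoint_left]
      intro k h1 h2
      simp only [OS, HS, Set.mem_ofPred_eq] at h1 h2
      first
        | (rw [h1] at h2; simp at h2; done)
        | (obtain ⟨i, j, h1⟩ := h1; rw [h1] at h2; simp at h2)
  by_contra hcon
  push Not at hcon
  let W : Nat.Partrec.Code → Set ℕ := fun c => {n | (c.eval n).Dom}
  let R : Nat.Partrec.Code × Nat.Partrec.Code → (ℕ → Pt) → Y → Prop := fun c x y =>
    (∀ e, y ∈ U e ↔ ∃ d, Nat.pair e d ∈ W c.1 ∧ D d ⊆ SS x) ∧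
    (∀ n, n ∈ SS x ↔ ∃ d, Nat.pair n d ∈ W c.2 ∧ D d ⊆ {e | y ∈ U e})
  obtain ⟨c, m, x, x', hx, hx', hd, ha, hs, k, hk, hk'⟩ := exists_pair Pt.orig
    (fun c => {x | ∃ y, R c x y}) (by
      intro x
      obtain ⟨y, ⟨Ψ, hΨ, h1⟩, ⟨Φ, hΦ, h2⟩⟩ := hcon x
      obtain ⟨c1, rfl⟩ := exists_code_of_re hΦ
      obtain ⟨c2, rfl⟩ := exists_code_of_re hΨ
      exact ⟨(c1, c2), y, h2, h1⟩)
  obtain ⟨y0, -⟩ := hcon x
  let F : (ℕ → Pt) → Y := fun u => if h : ∃ y, R c u y then h.choose else y0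
  have hF : ∀ u, (∃ y, R c u y) → R c u (F u) := fun u h => by
    simp only [F, dif_pos h]
    exact h.choose_spec
  have hE : F x = F x' := eq_of_swap U hU (W c.1) {x | ∃ y, R c x y} F
    (fun u hu => (hF u hu).1) m x x' hx hx' hd ha hs
  have h1 : 2 * (2 * k + 1) ∈ SS x := by
    refine Or.inl ⟨2 * k + 1, Or.inr ⟨k, ?_, rfl⟩, rfl⟩
    exact Or.inl hk
  have h2 : 2 * (2 * k + 1) ∈ SS x' := by
    rw [(hF x' hx').2, ← hE, ← (hF x hx).2]
    exact h1
  rcases h2 with ⟨n, hn, h3⟩ | ⟨n, -, h3⟩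
  · rcases hn with ⟨n', -, h4⟩ | ⟨n', hn', h4⟩
    · omega
    · have : n' = k := by omega
      subst this
      rw [mem_flag, hk'] at hn'
      simp [Pt.flag] at hn'
  · omega

end Pool.Agent.P.MP_ab6b4f_lc
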