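import Pool.Agent.P.MP_ab6b4f_lc.Main

set_option autoImplicit false

namespace Pool.Agent.P.MP_ab6b4f_lc

open Nat.Partrec

theorem pr_ball {α : Type} [Primcodable α] {b : α → ℕ} {R : α → ℕ → Prop} (hb : Primrec b)
    (hR : PrimrecPred fun p : α × ℕ => R p.1 p.2) : PrimrecPred fun a => ∀ i < b a, R a i := by
  have h1 : PrimrecRel fun (i : ℕ) (a : α) => R a i :=
    hR.comp (Primrec.pair Primrec.snd Primrec.fst)
  exact (h1.forall_mem_list.comp (Primrec.list_range.comp hb) Primrec.id).of_eq (by simp)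

theorem pr_bex {α : Type} [Primcodable α] {b : α → ℕ} {R : α → ℕ → Prop} (hb : Primrec b)
    (hR : PrimrecPred fun p : α × ℕ => R p.1 p.2) : PrimrecPred fun a => ∃ i < b a, R a i := by
  have h1 : PrimrecRel fun (i : ℕ) (a : α) => R a i :=
    hR.comp (Primrec.pair Primrec.snd Primrec.fst)
  exact (h1.exists_mem_list.comp (Primrec.list_range.comp hb) Primrec.id).of_eq (by simp)

theorem pr_imp {α : Type} [Primcodable α] {p q : α → Prop} (hp : PrimrecPred p)
    (hq : PrimrecPred q) : PrimrecPred fun a => p a → q a :=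
  (hp.not.or hq).of_eq (fun a => by tauto)

theorem pr_pow2 : Primrec fun n : ℕ => 2 ^ n :=
  (Primrec₂.unpaired'.1 Nat.Primrec.pow).comp (Primrec.const 2) Primrec.id

theorem pr_bit {α : Type} [Primcodable α] {f g : α → ℕ} (hf : Primrec f) (hg : Primrec g) :
    PrimrecPred fun a => g a ∈ D (f a) := by
  have h : PrimrecPred fun a => f a / 2 ^ g a % 2 = 1 :=
    Primrec.eq.comp (Primrec.nat_mod.comp (Primrec.nat_div.comp hf (pr_pow2.comp hg))
      (Primrec.const 2)) (Primrec.const 1)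
  refine h.of_eq (fun a => ?_)
  simp [D, Nat.testBit_eq_decide_div_mod_eq]

theorem re_exists {R : ℕ → ℕ → Prop} (hR : PrimrecPred fun p : ℕ × ℕ => R p.1 p.2) :
    REPred fun u => ∃ s, R u s := by
  classical
  have h1 : Computable₂ fun (u s : ℕ) => decide (R u s) := hR.decide.to_comp
  have h2 := (Partrec.rfind h1.partrec₂).dom_re
  refine h2.of_eq (fun u => ?_)
  rw [Nat.rfind_dom]
  simp

theorem exists_bits (g : ℕ → Prop) (L : ℕ) :
    ∃ ρ, ρ < 2 ^ L ∧ ∀ k, k ∈ D ρ ↔ k < L ∧ g k := by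
  classical
  refine ⟨Nat.ofBits (n := L) fun i => decide (g i), Nat.ofBits_lt_two_pow _, fun k => ?_⟩
  by_cases hk : k < L
  · simp [D, Nat.testBit_ofBits_lt _ _ hk, hk]
  · simp [D, Nat.testBit_ofBits_ge _ _ (not_lt.1 hk), hk]

theorem mem_join_l (A B : Set ℕ) (a : ℕ) : 2 * a ∈ join A B ↔ a ∈ A := by
  constructor
  · rintro (⟨n, hn, h⟩ | ⟨n, -, h⟩)
    · have : a = n := by omega
      exact this ▸ hn
    · omega
  · exact fun h => Or.inl ⟨a, h, rfl⟩

theorem mem_join_r (A B : Set ℕ) (a : ℕ) : 2 * a + 1 ∈ join A B ↔ a ∈ B := by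
  constructor
  · rintro (⟨n, -, h⟩ | ⟨n, hn, h⟩)
    · omega
    · have : a = n := by omega
      exact this ▸ hn
  · exact fun h => Or.inr ⟨a, h, rfl⟩

theorem cases4 (n : ℕ) : (∃ a, n = 2 * (2 * a)) ∨ (∃ k, n = 2 * (2 * k + 1)) ∨ ∃ k, n = 2 * k + 1 := by
  by_cases h : n % 2 = 1
  · exact Or.inr (Or.inr ⟨n / 2, by omega⟩)
  · by_cases h' : n % 4 = 0
    · exact Or.inl ⟨n / 4, by omega⟩
    · exact Or.inr (Or.inl ⟨n / 4, by omega⟩)

/-- the lower part is enumeration reducible to the doubled set -/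
theorem lower_le (T A B P N : Set ℕ) :
    EReducible (join T (A ∪ B ∪ P ∪ N)) (join (join T (A ∪ P)) (B ∪ N)) := by
  refine ⟨{u | ∃ _ : ℕ, 2 * u.unpair.1 ∈ D u.unpair.2 ∨
    (u.unpair.1 % 2 = 1 ∧ u.unpair.1 ∈ D u.unpair.2)}, ?_, fun n => ?_⟩
  · have h1 : Primrec fun p : ℕ × ℕ => p.1.unpair.1 :=
      Primrec.fst.comp (Primrec.unpair.comp Primrec.fst)
    have h2 : Primrec fun p : ℕ × ℕ => p.1.unpair.2 :=
      Primrec.snd.comp (Primrec.unpair.comp Primrec.fst)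
    exact re_exists (R := fun u _ => 2 * u.unpair.1 ∈ D u.unpair.2 ∨
      (u.unpair.1 % 2 = 1 ∧ u.unpair.1 ∈ D u.unpair.2))
      ((pr_bit h2 (Primrec.nat_mul.comp (Primrec.const 2) h1)).or
        ((Primrec.eq.comp (Primrec.nat_mod.comp h1 (Primrec.const 2)) (Primrec.const 1)).and
          (pr_bit h2 h1)))
  · have hD : ∀ i, D (2 ^ i) = {i} := fun i => by
      ext j
      simp [D, Nat.testBit_two_pow, eq_comm]
    simp only [Set.mem_ofPred_eq, Nat.unpair_pair, exists_const]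
    obtain ⟨a, rfl | rfl⟩ := Nat.even_or_odd' n
    · rw [mem_join_l]
      constructor
      · intro h
        refine ⟨2 ^ (2 * (2 * a)), Or.inl (by simp [hD]), ?_⟩
        rw [hD, Set.singleton_subset_iff, mem_join_l, mem_join_l]
        exact h
      · rintro ⟨d, h | h, hd⟩
        · have := hd h
          rwa [mem_join_l, mem_join_l] at this
        · omega
    · rw [mem_join_r]
      constructor
      · intro h
        by_cases h' : a ∈ A ∪ P
        · refine ⟨2 ^ (2 * (2 * a + 1)), Or.inl (by simp [hD]), ?_⟩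
          rw [hD, Set.singleton_subset_iff, mem_join_l, mem_join_r]
          exact h'
        · refine ⟨2 ^ (2 * a + 1), Or.inr ⟨by omega, by simp [hD]⟩, ?_⟩
          rw [hD, Set.singleton_subset_iff, mem_join_r]
          simp only [Set.mem_union] at h h' ⊢
          tauto
      · rintro ⟨d, h | h, hd⟩
        · have := hd h
          rw [mem_join_l, mem_join_r] at this
          simp only [Set.mem_union] at this ⊢
          tauto
        · have := hd h.2
          rw [mem_join_r] at this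
          simp only [Set.mem_union] at this ⊢
          tauto

/-- `n` lies in the doubled set read off from the lower part `V` along the side pattern `ρ` -/
def Tr (ρ : ℕ) (V : Set ℕ) (n : ℕ) : Prop :=
  (n % 4 = 0 ∧ n / 2 ∈ V) ∨ (n % 4 = 2 ∧ n / 4 ∈ D ρ ∧ n / 2 ∈ V) ∨
    (n % 2 = 1 ∧ ¬ n / 2 ∈ D ρ ∧ n ∈ V)

/-- the side pattern `ρ` is refuted below `L` by the lower part `V` -/
def Inc (ρ L J : ℕ) (V : Set ℕ) : Prop :=
  ∃ k < L, ∃ j < J, (¬ k ∈ D ρ ∧ 2 * (2 * Nat.pair k (3 * j + 1)) ∈ V) ∨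
    (k ∈ D ρ ∧ 2 * (2 * Nat.pair k (3 * j + 2)) ∈ V)

/-- one branch of the operator -/
def Br (c : Code) (e ρ L t : ℕ) (V : Set ℕ) : Prop :=
  (∃ d < L + 1, (Code.evaln t c (Nat.pair e d)).isSome = true ∧
    ∀ n < d, n ∈ D d → Tr ρ V n) ∨ Inc ρ L t V

theorem Br.mono {c : Code} {e ρ L t t' : ℕ} {V V' : Set ℕ} (h : Br c e ρ L t V) (ht : t ≤ t')
    (hV : V ⊆ V') : Br c e ρ L t' V' := by
  rcases h with ⟨d, hd, h1, h2⟩ | ⟨k, hk, j, hj, h⟩
  · refine Or.inl ⟨d, hd, ?_, fun n hn hn' => ?_⟩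
    · obtain ⟨x, hx⟩ := Option.isSome_iff_exists.1 h1
      exact Option.isSome_iff_exists.2 ⟨x, Code.evaln_mono ht hx⟩
    · rcases h2 n hn hn' with h | h | h
      · exact Or.inl ⟨h.1, hV h.2⟩
      · exact Or.inr (Or.inl ⟨h.1, h.2.1, hV h.2.2⟩)
      · exact Or.inr (Or.inr ⟨h.1, h.2.1, hV h.2.2⟩)
  · refine Or.inr ⟨k, hk, j, lt_of_lt_of_le hj ht, ?_⟩
    rcases h with h | h
    · exact Or.inl ⟨h.1, hV h.2⟩
    · exact Or.inr ⟨h.1, hV h.2⟩

theorem pr_Tr {α : Type} [Primcodable α] {ρ v n : α → ℕ} (hρ : Primrec ρ) (hv : Primrec v)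
    (hn : Primrec n) : PrimrecPred fun a => Tr (ρ a) (D (v a)) (n a) := by
  have hm : ∀ i j : ℕ, PrimrecPred fun a => n a % i = j := fun i j =>
    Primrec.eq.comp (Primrec.nat_mod.comp hn (Primrec.const i)) (Primrec.const j)
  have hd : ∀ i : ℕ, Primrec fun a => n a / i := fun i =>
    Primrec.nat_div.comp hn (Primrec.const i)
  exact ((hm 4 0).and (pr_bit hv (hd 2))).or
    (((hm 4 2).and ((pr_bit hρ (hd 4)).and (pr_bit hv (hd 2)))).or
      ((hm 2 1).and ((pr_bit hρ (hd 2)).not.and (pr_bit hv hn))))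

theorem pr_Inc {α : Type} [Primcodable α] {ρ L J v : α → ℕ} (hρ : Primrec ρ) (hL : Primrec L)
    (hJ : Primrec J) (hv : Primrec v) : PrimrecPred fun a => Inc (ρ a) (L a) (J a) (D (v a)) := by
  refine pr_bex hL (pr_bex (α := α × ℕ) (hJ.comp Primrec.fst) ?_)
  have ha : Primrec fun p : (α × ℕ) × ℕ => p.1.1 := Primrec.fst.comp Primrec.fst
  have hk : Primrec fun p : (α × ℕ) × ℕ => p.1.2 := Primrec.snd.comp Primrec.fst
  have hp : ∀ i : ℕ, Primrec fun p : (α × ℕ) × ℕ => 2 * (2 * Nat.pair p.1.2 (3 * p.2 + i)) :=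
    fun i => Primrec.nat_mul.comp (Primrec.const 2) (Primrec.nat_mul.comp (Primrec.const 2)
      (Primrec₂.natPair.comp hk (Primrec.nat_add.comp
        (Primrec.nat_mul.comp (Primrec.const 3) Primrec.snd) (Primrec.const i))))
  exact ((pr_bit (hρ.comp ha) hk).not.and (pr_bit (hv.comp ha) (hp 1))).or
    ((pr_bit (hρ.comp ha) hk).and (pr_bit (hv.comp ha) (hp 2)))

theorem pr_Br {α : Type} [Primcodable α] (c : Code) {e ρ L t v : α → ℕ} (he : Primrec e)
    (hρ : Primrec ρ) (hL : Primrec L) (ht : Primrec t) (hv : Primrec v) :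
    PrimrecPred fun a => Br c (e a) (ρ a) (L a) (t a) (D (v a)) := by
  refine PrimrecPred.or ?_ (pr_Inc hρ hL ht hv)
  refine pr_bex (Primrec.succ.comp hL) (PrimrecPred.and ?_ ?_)
  · refine Primrec.eq.comp (Primrec.option_isSome.comp ?_) (Primrec.const true)
    exact Code.primrec_evaln.comp (Primrec.pair (Primrec.pair (ht.comp Primrec.fst)
      (Primrec.const c)) (Primrec₂.natPair.comp (he.comp Primrec.fst) Primrec.snd))
  · refine pr_ball (α := α × ℕ) Primrec.snd (pr_imp ?_ ?_)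
    · exact pr_bit (Primrec.snd.comp Primrec.fst) Primrec.snd
    · have ha : Primrec fun p : (α × ℕ) × ℕ => p.1.1 := Primrec.fst.comp Primrec.fst
      exact pr_Tr (hρ.comp ha) (hv.comp ha) Primrec.snd

/-- the operator: every side pattern that starts like `ρ0` has a branch -/
def Op (c : Code) (m ρ0 : ℕ) : Set ℕ :=
  {u | ∃ s : ℕ, m ≤ s.unpair.1 ∧ ∀ ρ < 2 ^ s.unpair.1, (∀ k < m, (k ∈ D ρ ↔ k ∈ D ρ0)) →
    Br c u.unpair.1 ρ s.unpair.1 s.unpair.2 (D u.unpair.2)}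

theorem re_Op (c : Code) (m ρ0 : ℕ) : REPred fun u => u ∈ Op c m ρ0 := by
  have h1 : Primrec fun p : ℕ × ℕ => p.1.unpair.1 :=
    Primrec.fst.comp (Primrec.unpair.comp Primrec.fst)
  have h2 : Primrec fun p : ℕ × ℕ => p.1.unpair.2 :=
    Primrec.snd.comp (Primrec.unpair.comp Primrec.fst)
  have h3 : Primrec fun p : ℕ × ℕ => p.2.unpair.1 :=
    Primrec.fst.comp (Primrec.unpair.comp Primrec.snd)
  have h4 : Primrec fun p : ℕ × ℕ => p.2.unpair.2 :=
    Primrec.snd.comp (Primrec.unpair.comp Primrec.snd)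
  refine re_exists (R := fun u s => m ≤ s.unpair.1 ∧ ∀ ρ < 2 ^ s.unpair.1,
    (∀ k < m, (k ∈ D ρ ↔ k ∈ D ρ0)) → Br c u.unpair.1 ρ s.unpair.1 s.unpair.2 (D u.unpair.2))
    (PrimrecPred.and (Primrec.nat_le.comp (Primrec.const m) h3) ?_)
  refine pr_ball (α := ℕ × ℕ) (pr_pow2.comp h3) (pr_imp ?_ ?_)
  · refine pr_ball (α := (ℕ × ℕ) × ℕ) (Primrec.const m) ?_
    have ha : PrimrecPred fun p : ((ℕ × ℕ) × ℕ) × ℕ => p.2 ∈ D p.1.2 :=
      pr_bit (Primrec.snd.comp Primrec.fst) Primrec.snd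
    have hb : PrimrecPred fun p : ((ℕ × ℕ) × ℕ) × ℕ => p.2 ∈ D ρ0 :=
      pr_bit (Primrec.const ρ0) Primrec.snd
    exact ((pr_imp ha hb).and (pr_imp hb ha)).of_eq (fun a => iff_def.symm)
  · exact pr_Br c (h1.comp Primrec.fst) Primrec.snd (h3.comp Primrec.fst) (h4.comp Primrec.fst)
      (h2.comp Primrec.fst)

theorem bound_all (Q : ℕ → ℕ → Prop) (hQ : ∀ r b b', b ≤ b' → Q r b → Q r b') (M : ℕ)
    (h : ∀ r < M, ∃ b, Q r b) : ∃ b, ∀ r < M, Q r b := by
  induction M with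
  | zero => exact ⟨0, fun r hr => absurd hr (Nat.not_lt_zero _)⟩
  | succ M ih =>
    obtain ⟨b, hb⟩ := ih (fun r hr => h r (by omega))
    obtain ⟨b', hb'⟩ := h M (by omega)
    refine ⟨max b b', fun r hr => ?_⟩
    by_cases hr' : r < M
    · exact hQ _ _ _ (le_max_left _ _) (hb r hr')
    · have : r = M := by omega
      subst this
      exact hQ _ _ _ (le_max_right _ _) hb'

end Pool.Agent.P.MP_ab6b4f_lc
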